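import Mathlib

set_option autoImplicit false

open Finset

namespace Pool.Agent.Results.MP_90a930_lc.Tree

/-- A set of edges of G no two of which share a vertex. -/
def IsMat {n : ℕ} (G : SimpleGraph (Fin n)) (M : Finset (Sym2 (Fin n))) : Prop :=
  (∀ e ∈ M, e ∈ G.edgeSet) ∧ ∀ e ∈ M, ∀ e' ∈ M, e ≠ e' → ∀ v, v ∈ e → v ∉ e'

def EE : Finset (Sym2 (Fin 11)) :=
  {s(0, 1), s(0, 2), s(0, 3), s(0, 4), s(1, 5), s(2, 6), s(5, 7), s(5, 8), s(6, 9), s(6, 10)}

def GG : SimpleGraph (Fin 11) := SimpleGraph.fromEdgeSet EE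

theorem mem_GG (e : Sym2 (Fin 11)) : e ∈ GG.edgeSet ↔ e ∈ EE := by
  rw [GG, SimpleGraph.edgeSet_fromEdgeSet]
  refine ⟨fun h => h.1, fun h => ⟨h, ?_⟩⟩
  revert e
  simp only [Sym2.mem_diagSet]
  decide +kernel

def ff (e : Sym2 (Fin 11)) : ℕ :=
  if e = s(0, 1) ∨ e = s(0, 2) then 3 else if e = s(0, 3) then 8 else if e = s(0, 4) then 24
  else if e = s(1, 5) ∨ e = s(2, 6) then 2 else if e = s(5, 7) ∨ e = s(6, 9) then 4 else 12

theorem maxi (M : Finset (Sym2 (Fin 11))) (h1 : M ⊆ EE)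
    (h2 : ∀ e ∈ M, ∀ e' ∈ M, e ≠ e' → ∀ v, v ∈ e → v ∉ e')
    (h3 : ∀ e ∈ EE, e ∈ M ∨ ∃ e' ∈ M, ∃ v, v ∈ e ∧ v ∈ e') : Maximal (IsMat GG) M := by
  refine ⟨⟨fun e he => (mem_GG e).2 (h1 he), h2⟩, fun M' hM' hle e he => ?_⟩
  by_contra hne
  rcases h3 e ((mem_GG e).1 (hM'.1 e he)) with h | ⟨e', he', v, hv, hv'⟩
  · exact hne h
  · exact hM'.2 e he e' (hle he') (fun h => hne (h ▸ he')) v hv hv'

theorem middle (a b g h : ℕ → Prop) (ha : ∀ t, a t ∨ a (t + 1))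
    (hb : ∀ t, b t ∨ b (t + 1) ∨ b (t + 2))
    (hh : ∀ t, h t ∨ h (t + 1) ∨ h (t + 2) ∨ h (t + 3)) (ab : ∀ t, a t → ¬ b t)
    (ag : ∀ t, a t → ¬ g t) (ah : ∀ t, a t → ¬ h t) (gh : ∀ t, g t → ¬ h t) (t : ℕ)
    (ht : g (t + 3)) : b (t + 1) ∧ b (t + 3) ∧ b (t + 5) := by
  have a2 : a (t + 2) := (ha (t + 2)).resolve_right (fun h => ag _ h ht)
  have a4 : a (t + 4) := (ha (t + 3)).resolve_left (fun h => ag _ h ht)
  have h1 : h (t + 1) := by
    rcases hh (t + 1) with h | h | h | h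
    exacts [h, absurd h (ah _ a2), absurd h (gh _ ht), absurd h (ah _ a4)]
  have h5 : h (t + 5) := by
    rcases hh (t + 2) with h | h | h | h
    exacts [absurd h (ah _ a2), absurd h (gh _ ht), absurd h (ah _ a4), h]
  have a0 : a t := (ha t).resolve_right (fun h => ah _ h h1)
  have a6 : a (t + 6) := (ha (t + 5)).resolve_left (fun h => ah _ h h5)
  refine ⟨?_, ?_, ?_⟩
  · rcases hb t with h | h | h
    exacts [absurd h (ab _ a0), h, absurd h (ab _ a2)]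
  · rcases hb (t + 2) with h | h | h
    exacts [absurd h (ab _ a2), h, absurd h (ab _ a4)]
  · rcases hb (t + 4) with h | h | h
    exacts [absurd h (ab _ a4), h, absurd h (ab _ a6)]

theorem core (b c F : ℕ → Prop) (hb : ∀ t, b t ∨ b (t + 1) ∨ b (t + 2))
    (hc : ∀ t, c t ∨ c (t + 1) ∨ c (t + 2)) (bc : ∀ t, b t → ¬ c t)
    (bF : ∀ t, b t → ¬ F t) (cF : ∀ t, c t → ¬ F t) (p s q t : ℕ) (hp : F p) (hs : F s) (hq : F q)
    (h1 : p < s) (h2 : s < q) (h3 : q ≤ p + 8) (h0 : 2 ≤ p) (h4 : p ≤ t + 5) (h5 : t + 3 ≤ p + 9)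
    (ht : b (t + 1) ∧ b (t + 3) ∧ b (t + 5)) : t + 3 = p + 9 := by
  have far : ∀ x y, 2 ≤ x → F x → F y → x < y → x + 3 ≤ y := by
    intro x y hx Fx Fy hxy
    by_contra hlt
    have nb := fun h => bF _ h Fx
    have nc := fun h => cF _ h Fx
    have nb' := fun h => bF _ h Fy
    have nc' := fun h => cF _ h Fy
    obtain rfl | rfl : y = x + 1 ∨ y = x + 2 := by omega
    · have := hb x; have := hc x; have := bc (x + 2); tauto
    · have := hb x; have := hc x; have := bc (x + 1); tauto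
  have c2 : c (t + 2) := by
    have := hc (t + 1); have := bc _ ht.1; have := bc _ ht.2.1; tauto
  have c4 : c (t + 4) := by
    have := hc (t + 3); have := bc _ ht.2.1; have := bc _ ht.2.2; tauto
  have no : ∀ x, F x → x ≤ t ∨ t + 6 ≤ x := by
    intro x Fx
    by_contra hx
    obtain rfl | rfl | rfl | rfl | rfl :
      x = t + 1 ∨ x = t + 2 ∨ x = t + 3 ∨ x = t + 4 ∨ x = t + 5 := by omega
    exacts [bF _ ht.1 Fx, cF _ c2 Fx, bF _ ht.2.1 Fx, cF _ c4 Fx, bF _ ht.2.2 Fx]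
  have := far p s h0 hp hs h1
  have := far s q (by omega) hs hq h2
  have := no p hp
  have := no s hs
  have := no q hq
  omega

theorem result : ∃ (n : ℕ) (G : SimpleGraph (Fin n)) (R : Finset (Sym2 (Fin n)))
    (f : Sym2 (Fin n) → ℕ), (R : Set (Sym2 (Fin n))) = G.edgeSet ∧ R.Nonempty ∧
    (∀ e ∈ R, 1 ≤ f e) ∧
    (∀ z : Sym2 (Fin n) → ℝ, (∀ e ∈ R, 0 ≤ z e ∧ z e ≤ 1) → ∑ e ∈ R, z e = 1 → ∃ m : ℝ,
      IsGreatest {x | ∃ M, Maximal (IsMat G) M ∧ x = ∑ e ∈ M, z e * f e} m ∧ 0 < m ∧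
        1 / m ≤ 5 / 6) ∧
    ¬ ∃ S : ℕ → Finset (Sym2 (Fin n)), (∀ t, IsMat G (S t)) ∧
      ∀ e ∈ R, ∀ t, ∃ i < f e, e ∈ S (t + i) := by
  refine ⟨11, GG, EE, ff, Set.ext (fun e => (mem_GG e).symm), ⟨s(0, 1), by decide⟩,
    by decide +kernel, fun z hz hs => ?_, ?_⟩
  · have m1 := maxi {s(0, 1), s(2, 6), s(5, 7)} (by decide +kernel) (by decide +kernel)
      (by decide +kernel)
    have m2 := maxi {s(0, 1), s(2, 6), s(5, 8)} (by decide +kernel) (by decide +kernel)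
      (by decide +kernel)
    have m3 := maxi {s(0, 2), s(1, 5), s(6, 9)} (by decide +kernel) (by decide +kernel)
      (by decide +kernel)
    have m4 := maxi {s(0, 2), s(1, 5), s(6, 10)} (by decide +kernel) (by decide +kernel)
      (by decide +kernel)
    have m5 := maxi {s(0, 3), s(1, 5), s(2, 6)} (by decide +kernel) (by decide +kernel)
      (by decide +kernel)
    have m6 := maxi {s(0, 4), s(1, 5), s(2, 6)} (by decide +kernel) (by decide +kernel)
      (by decide +kernel)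
    obtain ⟨M, hM, hmax⟩ := Set.exists_max_image {M | Maximal (IsMat GG) M}
      (fun M => ∑ e ∈ M, z e * ff e) (Set.toFinite _) ⟨_, m1⟩
    have k1 := hmax _ m1
    have k2 := hmax _ m2
    have k3 := hmax _ m3
    have k4 := hmax _ m4
    have k5 := hmax _ m5
    have k6 := hmax _ m6
    rw [sum_insert (by decide), sum_pair (by decide)] at k1 k2 k3 k4 k5 k6
    rw [EE, sum_insert (by decide), sum_insert (by decide), sum_insert (by decide),
      sum_insert (by decide), sum_insert (by decide), sum_insert (by decide),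
      sum_insert (by decide), sum_insert (by decide), sum_pair (by decide)] at hs
    simp only [show ff s(0, 1) = 3 by decide, show ff s(0, 2) = 3 by decide,
      show ff s(0, 3) = 8 by decide, show ff s(0, 4) = 24 by decide, show ff s(1, 5) = 2 by decide,
      show ff s(2, 6) = 2 by decide, show ff s(5, 7) = 4 by decide, show ff s(5, 8) = 12 by decide,
      show ff s(6, 9) = 4 by decide, show ff s(6, 10) = 12 by decide] at k1 k2 k3 k4 k5 k6
    push_cast at k1 k2 k3 k4 k5 k6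
    have key : 6 / 5 ≤ ∑ e ∈ M, z e * ff e := by linarith
    refine ⟨_, ⟨⟨M, hM, rfl⟩, ?_⟩, by linarith, ?_⟩
    · rintro x ⟨M', hM', rfl⟩
      exact hmax _ hM'
    · rw [div_le_iff₀ (by linarith)]; linarith
  · rintro ⟨S, hS, h⟩
    have dis : ∀ (e e' : Sym2 (Fin 11)) (v : Fin 11), e ≠ e' ∧ v ∈ e ∧ v ∈ e' →
        ∀ t, e ∈ S t → e' ∉ S t := fun e e' v hv t h1 h2 => (hS t).2 e h1 e' h2 hv.1 v hv.2.1 hv.2.2
    have w2 : ∀ e, e ∈ EE ∧ ff e = 2 → ∀ t, e ∈ S t ∨ e ∈ S (t + 1) := by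
      intro e he t
      obtain ⟨i, hi, h⟩ := h e he.1 t
      rw [he.2] at hi
      interval_cases i <;> tauto
    have w3 : ∀ e, e ∈ EE ∧ ff e = 3 → ∀ t, e ∈ S t ∨ e ∈ S (t + 1) ∨ e ∈ S (t + 2) := by
      intro e he t
      obtain ⟨i, hi, h⟩ := h e he.1 t
      rw [he.2] at hi
      interval_cases i <;> tauto
    have w4 : ∀ e, e ∈ EE ∧ ff e = 4 →
        ∀ t, e ∈ S t ∨ e ∈ S (t + 1) ∨ e ∈ S (t + 2) ∨ e ∈ S (t + 3) := by
      intro e he t
      obtain ⟨i, hi, h⟩ := h e he.1 t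
      rw [he.2] at hi
      interval_cases i <;> tauto
    have hb := w3 s(0, 1) (by decide)
    have hc := w3 s(0, 2) (by decide)
    have bc := dis s(0, 1) s(0, 2) 0 (by decide)
    have mb := middle _ _ _ _ (w2 s(1, 5) (by decide)) hb (w4 s(5, 7) (by decide))
      (dis _ _ 1 (by decide)) (dis _ s(5, 8) 5 (by decide)) (dis _ _ 5 (by decide))
      (dis _ _ 5 (by decide))
    have mc := middle _ _ _ _ (w2 s(2, 6) (by decide)) hc (w4 s(6, 9) (by decide))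
      (dis _ _ 2 (by decide)) (dis _ s(6, 10) 6 (by decide)) (dis _ _ 6 (by decide))
      (dis _ _ 6 (by decide))
    have bF : ∀ t, s(0, 1) ∈ S t → ¬ (s(0, 3) ∈ S t ∨ s(0, 4) ∈ S t) := fun t h =>
      not_or.2 ⟨dis _ _ 0 (by decide) t h, dis _ _ 0 (by decide) t h⟩
    have cF : ∀ t, s(0, 2) ∈ S t → ¬ (s(0, 3) ∈ S t ∨ s(0, 4) ∈ S t) := fun t h =>
      not_or.2 ⟨dis _ _ 0 (by decide) t h, dis _ _ 0 (by decide) t h⟩
    obtain ⟨j, -, hs⟩ := h s(0, 4) (by decide) 20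
    have hd : ∀ t, ∃ i < 8, s(0, 3) ∈ S (t + i) := h s(0, 3) (by decide)
    have ns : s(0, 3) ∉ S (20 + j) := dis _ _ 0 (by decide) _ hs
    obtain ⟨p, q, hp, hq, h1, h2, h3, h0⟩ : ∃ p q, s(0, 3) ∈ S p ∧ s(0, 3) ∈ S q ∧ p < 20 + j ∧
        20 + j < q ∧ q ≤ p + 8 ∧ 5 ≤ p := by
      classical
      obtain ⟨i, hi, h4⟩ := hd (12 + j)
      have h5 := Nat.findGreatest_spec (P := fun x => s(0, 3) ∈ S x) (n := 20 + j)
        (show 12 + j + i ≤ 20 + j by omega) h4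
      have h6 := Nat.le_findGreatest (P := fun x => s(0, 3) ∈ S x) (n := 20 + j)
        (show 12 + j + i ≤ 20 + j by omega) h4
      have h7 := Nat.findGreatest_le (P := fun x => s(0, 3) ∈ S x) (20 + j)
      have h8 := fun k => Nat.findGreatest_is_greatest (P := fun x => s(0, 3) ∈ S x) (n := 20 + j)
        (k := k)
      generalize Nat.findGreatest (fun x => s(0, 3) ∈ S x) (20 + j) = p at h5 h6 h7 h8
      obtain ⟨k, hk, h9⟩ := hd (p + 1)
      refine ⟨p, p + 1 + k, h5, h9, lt_of_le_of_ne h7 (fun e => ns (e ▸ h5)), ?_, by omega, by omega⟩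
      by_contra hle
      exact h8 _ (by omega) (by omega) h9
    obtain ⟨p, rfl⟩ : ∃ r, p = r + 5 := ⟨p - 5, by omega⟩
    obtain ⟨i, hi, gi⟩ : ∃ i < 12, s(5, 8) ∈ S (p + 3 + i) := h s(5, 8) (by decide) _
    obtain ⟨k, hk, gk⟩ : ∃ i < 12, s(6, 10) ∈ S (p + 3 + i) := h s(6, 10) (by decide) _
    have t1 := mb (p + i) (by rwa [add_right_comm])
    have t2 := mc (p + k) (by rwa [add_right_comm])
    have e1 := core _ _ _ hb hc bc bF cF _ _ _ _ (Or.inl hp) (Or.inr hs) (Or.inl hq) h1 h2 h3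
      (by omega) (by omega) (by omega) t1
    have e2 := core _ _ _ hc hb (fun t h h' => bc t h' h) cF bF _ _ _ _ (Or.inl hp) (Or.inr hs)
      (Or.inl hq) h1 h2 h3 (by omega) (by omega) (by omega) t2
    obtain rfl : i = k := by omega
    exact bc _ t1.1 t2.1

end Pool.Agent.Results.MP_90a930_lc.Tree
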